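import Pool.Agent.Helper6.CS.Goals2

/-!
# Project CS (MP_81e84b_lc), packet EC: the step of Lemma 5
-/

namespace Pool.Agent.Helper60.CS

open Pool.Agent.Helper6.CS

set_option synthInstance.maxSize 1000000000

/-- The word of the colours. -/
noncomputable def kap {M : Type} [World M] (a K : M) (f : Wd M → M) (w y : Wd M) : Wd M :=
  Wd.of K fun i => f (isub a (w ++ y) (dec i))

theorem kap_int {M : Type} [World M] (a K : M) (f : Wd M → M) [IFn M f] (w : Wd M) :
    IFn M fun y : Wd M => kap a K f w y := by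
  unfold kap
  infer_instance

theorem kap_len {M : Type} [World M] (a K : M) (f : Wd M → M) [IFn M f] (w y : Wd M) :
    (kap a K f w y).len = K := by
  have : IFn M fun i : M => f (isub a (w ++ y) (dec i)) := by infer_instance
  unfold kap
  rw [Wd.len_of]

theorem kap_get {M : Type} [World M] (a K : M) (f : Wd M → M) [IFn M f] (w y : Wd M) {i : M}
    (hi : i < K) : (kap a K f w y).get i = f (isub a (w ++ y) (dec i)) := by
  have : IFn M fun i : M => f (isub a (w ++ y) (dec i)) := by infer_instance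
  unfold kap
  rw [Wd.get_of_lt _ _ hi]

theorem t_EC (hL1F : G_L1F) (hL4 : G_L4) (hBND : G_BND) (hPSM : G_PSM) (hEA : G_EA)
    (hEB : G_EB) : G_EC := by
  intro M _ a k ℓ j f w hf hℓ hw hPS
  obtain ⟨K, hK⟩ := hBND M (a + k + 1) j
  obtain ⟨K', hK'⟩ := hBND M ℓ K
  have hki := kap_int a K f w
  have hE : IP M fun p : M × Wd M => Dw a k f w j p.2 ∧ (Cod.cd (kap a K f w p.2) : M) = p.1 := by
    have h1 : IFn M fun p : M × Wd M => kap a K f w p.2 :=
      IFn.comp (f := fun p : M × Wd M => p.2) hki inferInstance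
    have h2 : IP M fun p : M × Wd M => Dw a k f w j p.2 := IP.Dw a k f
    infer_instance
  obtain ⟨κ, -, hκ⟩ := hL1F M (a + j)
    (fun κ y => Dw a k f w j y ∧ (Cod.cd (kap a K f w y) : M) = κ) hE K'
    (hPSM M (a + j) _ _ (fun y _ hy => ⟨_, hK' (kap a K f w y) (fun i hi => by
      rw [kap_len] at hi
      rw [kap_get _ _ _ _ _ hi]
      exact hℓ _) (by rw [kap_len]), hy, rfl⟩) hPS)
  have hEκ : IP M fun y : Wd M => Dw a k f w j y ∧ (Cod.cd (kap a K f w y) : M) = κ := by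
    infer_instance
  obtain ⟨s, hs, ⟨hsD, hsκ⟩, hExt⟩ := hL4 M (a + j) _ hEκ hκ
  refine ⟨s, hs, hsD, ?_⟩
  rw [← add_assoc]
  refine hPSM M (a + j + 1) _ _ ?_ hExt
  intro y hy hyE u z hu hz hz0 hlen
  obtain ⟨t, -, ht⟩ := Wd.exists_cons hz0
  obtain ⟨z₀, hz₀, hz₀l⟩ := Wd.exists_snoc ht
  set e := z.get t.len with he
  have hel : e < a + k + 1 := hz _ (by rw [ht]; exact (World.lt_succ _ _).2 le_rfl)
  have hj : u.len + 1 + z₀.len = j := by
    rw [ht, ← add_assoc] at hlen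
    rw [hz₀l]
    exact add_right_cancel hlen
  have hz₀o : Over (a + k + 1) z₀ := by
    rw [hz₀, Over.append_iff] at hz
    exact hz.1
  set v₀ := u ++ Wd.sg (a + k) ++ z₀ with hv₀
  have hv₀l : v₀.len = j := by
    rw [hv₀, Wd.len_append, Wd.len_append, Wd.len_sg]
    exact hj
  have hv₀o : Over (a + k + 1) v₀ := by
    rw [hv₀, Over.append_iff, Over.append_iff, Over.sg_iff]
    exact ⟨⟨hu.1.mono (World.lt_succ _ _ |>.2 le_rfl).le, (World.lt_succ _ _).2 le_rfl⟩, hz₀o⟩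
  have hul : u.len < j := by
    rw [← hj, add_assoc]
    exact lt_add_of_pos_right _ (lt_of_lt_of_le zero_lt_one
      (le_add_of_nonneg_right (World.zero_le' _)))
  -- the letter b
  obtain ⟨b, hb, hbj⟩ : ∃ b, ((e < a ∧ b = e) ∨ ∃ i, i < j ∧ b = a + i ∧ v₀.get i = e) ∧
      b < a + j := by
    rcases lt_or_ge e a with h | h
    · exact ⟨e, Or.inl ⟨h, rfl⟩, lt_of_lt_of_le h (le_add_of_nonneg_right (World.zero_le' _))⟩
    · obtain ⟨i₀, hi₀⟩ := World.exists_add _ _ h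
      have h1 : i₀ ≤ k := by
        rw [hi₀, add_assoc] at hel
        exact (World.lt_succ _ _).1 (lt_of_add_lt_add_left hel)
      rcases h1.lt_or_eq with h2 | h2
      · obtain ⟨p, hp, hp2⟩ := hu.2.1 i₀ h2
        refine ⟨a + p, Or.inr ⟨p, hp.trans hul, rfl, ?_⟩, add_lt_add_right (hp.trans hul) _⟩
        rw [hv₀, Wd.append_assoc, Wd.get_append_left _ _ hp, hp2, hi₀]
      · refine ⟨a + u.len, Or.inr ⟨u.len, hul, rfl, ?_⟩, add_lt_add_right hul _⟩
        have h3 : u.len = u.len + 0 := (add_zero _).symm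
        rw [hv₀, Wd.append_assoc, h3, Wd.get_append_right,
          Wd.get_append_left _ _ (by rw [Wd.len_sg]; exact zero_lt_one), Wd.get_sg_zero, hi₀, h2]
  have hws : Over (a + j) (w ++ s) := Over.append_iff.2 ⟨hw.1, hs⟩
  obtain ⟨hD', hκ'⟩ := hyE b hbj
  set y' := s ++ Wd.sg b ++ Wd.sub (a + j) b y with hy'
  have key : isub a ((w ++ s ++ Wd.sg (a + j)) ++ y) (u ++ Wd.sg (a + k) ++ z) =
      isub a (w ++ y') v₀ := by
    have h1 := hEA M a j (w ++ s) y v₀ e b hws hy hv₀l hb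
    have h2 : u ++ Wd.sg (a + k) ++ z = v₀ ++ Wd.sg e := by
      rw [hz₀, hv₀, Wd.append_assoc (u ++ Wd.sg (a + k))]
    have h3 : (w ++ s) ++ Wd.sg b ++ Wd.sub (a + j) b y = w ++ y' := by
      rw [hy', Wd.append_assoc, Wd.append_assoc, Wd.append_assoc]
    rw [h2, h1, h3]
  rw [key]
  by_cases h0 : z₀.len = 0
  · have hn : z₀ = Wd.nil M := Wd.eq_nil_of_len h0
    have hv : v₀ = u ++ Wd.sg (a + k) := by rw [hv₀, hn, Wd.append_nil]
    have h1 : kap a K f w y' = kap a K f w s := Cod.inj (hκ'.trans hsκ.symm)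
    have h2 : (Cod.cd v₀ : M) < K := hK v₀ hv₀o hv₀l.le
    have h3 := congrArg (fun x : Wd M => x.get (Cod.cd v₀)) h1
    simp only [kap_get _ _ _ _ _ h2, dec_cd] at h3
    have h4 := (hEB M a j).2.1 (w ++ s) (Wd.nil M) v₀ hws hv₀l
    rw [Wd.append_nil] at h4
    rw [h3, ← hv, h4]
  · have h1 := hD' u z₀ hu hz₀o h0 hj
    rw [← hv₀] at h1
    have h2 := (hEB M a j).1 w (s ++ Wd.sg (a + j)) (u ++ Wd.sg (a + k)) hw (by
      rw [Wd.len_append, Wd.len_sg, ← hj]
      exact lt_add_of_pos_right _ (lt_of_le_of_ne (World.zero_le' _) (Ne.symm h0)))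
    rw [← Wd.append_assoc] at h2
    rw [h1, h2]

end Pool.Agent.Helper60.CS
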